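import Pool.Agent.H91.FeketeSz

set_option autoImplicit false

open H91.FeketeSz in
theorem Pool.Agent.Results.MP_dfd3b8_an.NotSharp.result :
    ∃ (α β : ℝ) (l : ℂ), α + β < 2 ∧ 5 * α + 4 * β < 6 ∧ β ≠ 0 ∧ α + β ≠ 1 ∧
    ∃ B : ℝ, B < max ((2 - α - β) / (6 - 5 * α - 4 * β)) ‖1 - l‖ ∧
      ∀ f, M α β f → ‖Phi f l‖ ≤ B :=
  main
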